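import Mathlib
import Pool.Agent.X251.FZ.Check

/-!
# Refutation of finite configurations in graphs without induced `P4 + P1` and `C4`

`R u v` stands for `u = v` or `u` adjacent to `v`. Configurations consist of chordless cycles
(blocks), and are refuted by unit propagation from instances of the absence of `C4`, `P4 + P1` and
possibly `C6`.
-/

set_option autoImplicit false

namespace Pool.Agent.X251.PC

open Pool.Agent.X251.FZ

/-- code of a pair -/
def ev (i j : ℕ) : ℕ :=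
  cond (Nat.ble (Nat.succ i) j) (Nat.add (Nat.mul 16 i) j) (Nat.add (Nat.mul 16 j) i)

/-- positive literal -/
def ps (i j : ℕ) : ℕ := Nat.mul 2 (ev i j)

/-- negative literal -/
def ng (i j : ℕ) : ℕ := Nat.succ (Nat.mul 2 (ev i j))

/-- instances of the forbidden subgraphs -/
inductive Ax
  | c4 (a b c d : ℕ)
  | pp (a b c d e : ℕ)
  | c6 (a b c d e f : ℕ)
  | nk (a b c : ℕ)

/-- the clause of an instance -/
def Ax.cl : Ax → List ℕ
  | .c4 a b c d => [ng a b, ng b c, ng c d, ng d a, ps a c, ps b d]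
  | .pp a b c d e => [ng a b, ng b c, ng c d, ps a c, ps a d, ps b d, ps e a, ps e b, ps e c, ps e d]
  | .c6 a b c d e f => [ng a b, ng b c, ng c d, ng d e, ng e f, ng f a, ps a c, ps a d, ps a e,
      ps b d, ps b e, ps b f, ps c e, ps c f, ps d f]
  | .nk a b c => [ng a b, ng a c]

/-- conjunction -/
def an (a b : Bool) : Bool := cond a b false

theorem an_eq {a b : Bool} (h : an a b = true) : a = true ∧ b = true := by
  cases a <;> cases b <;> simp_all [an]

/-- `i < 16` -/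
def lt (i : ℕ) : Bool := Nat.ble (Nat.succ i) 16

theorem lt_eq {i : ℕ} (h : lt i = true) : i < 16 := Nat.le_of_ble_eq_true h

/-- `a` belongs to the hole of one of the entries, and `b`, `c` are its base vertices -/
def isNk : List (ℕ × ℕ × ℕ × ℕ) → ℕ → ℕ → ℕ → Bool
  | [], _, _, _ => false
  | t :: r, a, b, c => cond (an (an (Nat.ble t.1 a) (Nat.ble (Nat.succ a) (Nat.add t.1 t.2.1)))
      (an (Nat.beq t.2.2.1 b) (Nat.beq t.2.2.2 c))) true (isNk r a b c)

/-- admissible instances -/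
def Ax.ok (six : Bool) (nks : List (ℕ × ℕ × ℕ × ℕ)) : Ax → Bool
  | .c4 a b c d => an (lt a) (an (lt b) (an (lt c) (lt d)))
  | .pp a b c d e => an (lt a) (an (lt b) (an (lt c) (an (lt d) (lt e))))
  | .c6 a b c d e f => an six (an (lt a) (an (lt b) (an (lt c) (an (lt d) (an (lt e) (lt f))))))
  | .nk a b c => an (lt a) (an (lt b) (an (lt c) (isNk nks a b c)))

/-- The properties of the relation `equal or adjacent`. -/
structure Facts {V : Type*} (R : V → V → Prop) (six : Bool) : Prop where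
  symm : ∀ a b, R a b → R b a
  c4 : ∀ a b c d, R a b → R b c → R c d → R d a → ¬ R a c → ¬ R b d → False
  pp : ∀ a b c d e, R a b → R b c → R c d → ¬ R a c → ¬ R a d → ¬ R b d →
    ¬ R e a → ¬ R e b → ¬ R e c → ¬ R e d → False
  c6 : six = true → ∀ a b c d e f, R a b → R b c → R c d → R d e → R e f → R f a →
    ¬ R a c → ¬ R a d → ¬ R a e → ¬ R b d → ¬ R b e → ¬ R b f → ¬ R c e → ¬ R c f → ¬ R d f → False

section
variable {V : Type*} (R : V → V → Prop) (f : ℕ → V)

/-- the valuation -/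
def val (n : ℕ) : Prop := R (f (n / 16)) (f (n % 16))

variable {R} {six : Bool} (hF : Facts R six)
include hF

theorem val_ev {i j : ℕ} (hi : i < 16) (hj : j < 16) : val R f (ev i j) ↔ R (f i) (f j) := by
  by_cases h : i < j
  · have hb : Nat.ble (Nat.succ i) j = true := Nat.ble_eq_true_of_le h
    have e : ev i j = 16 * i + j := by unfold ev; rw [hb]; rfl
    have e1 : (16 * i + j) / 16 = i := by omega
    have e2 : (16 * i + j) % 16 = j := by omega
    unfold val
    rw [e, e1, e2]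
  · have hb : Nat.ble (Nat.succ i) j = false := by
      rw [Bool.eq_false_iff]
      exact fun hc => h (Nat.le_of_ble_eq_true hc)
    have e : ev i j = 16 * j + i := by unfold ev; rw [hb]; rfl
    have e1 : (16 * j + i) / 16 = j := by omega
    have e2 : (16 * j + i) % 16 = i := by omega
    unfold val
    rw [e, e1, e2]
    exact ⟨hF.symm _ _, hF.symm _ _⟩

theorem lit_ps {i j : ℕ} (hi : i < 16) (hj : j < 16) : Lit (val R f) (ps i j) ↔ R (f i) (f j) := by
  have e : ps i j = 2 * ev i j := rfl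
  have e1 : (2 * ev i j) / 2 = ev i j := by omega
  have e2 : (2 * ev i j) % 2 = 0 := by omega
  unfold Lit
  rw [e, e1, e2, val_ev f hF hi hj]
  simp

theorem lit_ng {i j : ℕ} (hi : i < 16) (hj : j < 16) : Lit (val R f) (ng i j) ↔ ¬ R (f i) (f j) := by
  have e : ng i j = 2 * ev i j + 1 := rfl
  have e1 : (2 * ev i j + 1) / 2 = ev i j := by omega
  have e2 : (2 * ev i j + 1) % 2 = 1 := by omega
  unfold Lit
  rw [e, e1, e2, val_ev f hF hi hj]
  simp

omit hF in
theorem isNk_spec {nks : List (ℕ × ℕ × ℕ × ℕ)} {a b c : ℕ} (h : isNk nks a b c = true) :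
    ∃ t ∈ nks, ∃ x < t.2.1, a = t.1 + x ∧ b = t.2.2.1 ∧ c = t.2.2.2 := by
  induction nks with
  | nil => simp [isNk] at h
  | cons t r ih =>
    rw [isNk] at h
    rcases hb : an (an (Nat.ble t.1 a) (Nat.ble (Nat.succ a) (Nat.add t.1 t.2.1)))
      (an (Nat.beq t.2.2.1 b) (Nat.beq t.2.2.2 c)) with _ | _
    · rw [hb, cond_false] at h
      obtain ⟨t', h1, h2⟩ := ih h
      exact ⟨t', List.mem_cons_of_mem _ h1, h2⟩
    · obtain ⟨h1, h2⟩ := an_eq hb
      obtain ⟨h3, h4⟩ := an_eq h1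
      obtain ⟨h5, h6⟩ := an_eq h2
      have h7 : t.1 ≤ a := Nat.le_of_ble_eq_true h3
      have h8 : a + 1 ≤ t.1 + t.2.1 := Nat.le_of_ble_eq_true h4
      refine ⟨t, List.mem_cons_self, a - t.1, by omega, by omega, ?_, ?_⟩
      · exact (Nat.eq_of_beq_eq_true h5).symm
      · exact (Nat.eq_of_beq_eq_true h6).symm

theorem ax_sound {nks : List (ℕ × ℕ × ℕ × ℕ)}
    (hn : ∀ t ∈ nks, ∀ x < t.2.1, ¬ (R (f (t.1 + x)) (f t.2.2.1) ∧ R (f (t.1 + x)) (f t.2.2.2)))
    (a : Ax) (h : Ax.ok six nks a = true) : Cl (val R f) a.cl := by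
  by_contra hc
  cases a with
  | c4 a b c d =>
    obtain ⟨ha, h⟩ := an_eq h
    obtain ⟨hb, h⟩ := an_eq h
    obtain ⟨hcc, hd⟩ := an_eq h
    replace ha := lt_eq ha; replace hb := lt_eq hb; replace hcc := lt_eq hcc; replace hd := lt_eq hd
    simp only [Ax.cl, cl_cons, lit_ps f hF ha hcc, lit_ps f hF hb hd, lit_ng f hF ha hb,
      lit_ng f hF hb hcc, lit_ng f hF hcc hd, lit_ng f hF hd ha, not_or, not_not] at hc
    obtain ⟨k1, k2, k3, k4, k5, k6, -⟩ := hc
    exact hF.c4 _ _ _ _ k1 k2 k3 k4 k5 k6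
  | pp a b c d e =>
    obtain ⟨ha, h⟩ := an_eq h
    obtain ⟨hb, h⟩ := an_eq h
    obtain ⟨hcc, h⟩ := an_eq h
    obtain ⟨hd, he⟩ := an_eq h
    replace ha := lt_eq ha; replace hb := lt_eq hb; replace hcc := lt_eq hcc; replace hd := lt_eq hd
    replace he := lt_eq he
    simp only [Ax.cl, cl_cons, lit_ng f hF ha hb, lit_ng f hF hb hcc, lit_ng f hF hcc hd,
      lit_ps f hF ha hcc, lit_ps f hF ha hd, lit_ps f hF hb hd, lit_ps f hF he ha,
      lit_ps f hF he hb, lit_ps f hF he hcc, lit_ps f hF he hd, not_or, not_not] at hc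
    obtain ⟨k1, k2, k3, k4, k5, k6, k7, k8, k9, k10, -⟩ := hc
    exact hF.pp _ _ _ _ _ k1 k2 k3 k4 k5 k6 k7 k8 k9 k10
  | c6 a b c d e g =>
    obtain ⟨h6, h⟩ := an_eq h
    obtain ⟨ha, h⟩ := an_eq h
    obtain ⟨hb, h⟩ := an_eq h
    obtain ⟨hcc, h⟩ := an_eq h
    obtain ⟨hd, h⟩ := an_eq h
    obtain ⟨he, hg⟩ := an_eq h
    replace ha := lt_eq ha; replace hb := lt_eq hb; replace hcc := lt_eq hcc; replace hd := lt_eq hd
    replace he := lt_eq he; replace hg := lt_eq hg
    simp only [Ax.cl, cl_cons, lit_ng f hF ha hb, lit_ng f hF hb hcc, lit_ng f hF hcc hd,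
      lit_ng f hF hd he, lit_ng f hF he hg, lit_ng f hF hg ha,
      lit_ps f hF ha hcc, lit_ps f hF ha hd, lit_ps f hF ha he, lit_ps f hF hb hd,
      lit_ps f hF hb he, lit_ps f hF hb hg, lit_ps f hF hcc he, lit_ps f hF hcc hg,
      lit_ps f hF hd hg, not_or, not_not] at hc
    obtain ⟨k1, k2, k3, k4, k5, k6, k7, k8, k9, k10, k11, k12, k13, k14, k15, -⟩ := hc
    exact hF.c6 h6 _ _ _ _ _ _ k1 k2 k3 k4 k5 k6 k7 k8 k9 k10 k11 k12 k13 k14 k15
  | nk a b c =>
    obtain ⟨ha, h⟩ := an_eq h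
    obtain ⟨hb, h⟩ := an_eq h
    obtain ⟨hcc, h⟩ := an_eq h
    replace ha := lt_eq ha; replace hb := lt_eq hb; replace hcc := lt_eq hcc
    simp only [Ax.cl, cl_cons, lit_ng f hF ha hb, lit_ng f hF ha hcc, not_or, not_not] at hc
    obtain ⟨k1, k2, -⟩ := hc
    obtain ⟨t, ht, x, hx, rfl, rfl, rfl⟩ := isNk_spec h
    exact hn t ht x hx ⟨k1, k2⟩

end

/-- the pairs `(x, y)` with `x < y < l` -/
def prs (l : ℕ) : List (ℕ × ℕ) :=
  (List.range l).flatMap fun y => (List.range y).map fun x => (x, y)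

theorem mem_prs {l : ℕ} {p : ℕ × ℕ} (h : p ∈ prs l) : p.1 < p.2 ∧ p.2 < l := by
  unfold prs at h
  rw [List.mem_flatMap] at h
  obtain ⟨y, hy, h⟩ := h
  rw [List.mem_map] at h
  obtain ⟨x, hx, rfl⟩ := h
  exact ⟨List.mem_range.1 hx, List.mem_range.1 hy⟩

/-- consecutive in a cycle of length `l` -/
def cons (l : ℕ) (p : ℕ × ℕ) : Bool := (p.2 == p.1 + 1) || (p.1 == 0 && p.2 == l - 1)

/-- the false literals of a block -/
def blk (s l : ℕ) : List ℕ :=
  (prs l).map fun p => if cons l p = true then ng (s + p.1) (s + p.2) else ps (s + p.1) (s + p.2)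

/-- the mask of all blocks -/
def mask : List (ℕ × ℕ) → ℕ
  | [] => 0
  | b :: t => negAll (mask t) (blk b.1 b.2)

/-- the data of a refutation -/
structure Dat where
  six : Bool
  blocks : List (ℕ × ℕ)
  nks : List (ℕ × ℕ × ℕ × ℕ)
  m0 : ℕ
  axs : List Ax
  tr : Tr
  L : List (List ℕ)

/-- the blocks fit and the mask is right -/
def Dat.pre (D : Dat) : Bool :=
  (D.blocks.all fun b => decide (b.1 + b.2 ≤ 16)) && (mask D.blocks == D.m0)

theorem mv_mask {V : Type*} {R : V → V → Prop} {six : Bool} (hF : Facts R six) (f : ℕ → V) :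
    ∀ (B : List (ℕ × ℕ)), (∀ b ∈ B, b.1 + b.2 ≤ 16) →
    (∀ b ∈ B, ∀ x y, x < y → y < b.2 →
      (R (f (b.1 + x)) (f (b.1 + y)) ↔ (y = x + 1 ∨ (x = 0 ∧ y = b.2 - 1)))) →
    MV (val R f) (mask B) := by
  intro B
  induction B with
  | nil => intro _ _; exact mv_zero _
  | cons b t ih =>
    intro h1 h2
    rw [mask]
    refine negAll_mv _ _ (ih (fun c hc => h1 c (List.mem_cons_of_mem _ hc))
      (fun c hc => h2 c (List.mem_cons_of_mem _ hc))) ?_
    have hb := h1 b List.mem_cons_self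
    have hR := h2 b List.mem_cons_self
    rintro ⟨l, hl, hlit⟩
    unfold blk at hl
    rw [List.mem_map] at hl
    obtain ⟨p, hp, rfl⟩ := hl
    obtain ⟨hp1, hp2⟩ := mem_prs hp
    have hx : b.1 + p.1 < 16 := by omega
    have hy : b.1 + p.2 < 16 := by omega
    have hRR := hR p.1 p.2 hp1 hp2
    split_ifs at hlit with hc
    · rw [lit_ng f hF hx hy, hRR] at hlit
      apply hlit
      unfold cons at hc
      simpa using hc
    · rw [lit_ps f hF hx hy, hRR] at hlit
      apply hc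
      unfold cons
      simpa using hlit

/-- **Refutation of a configuration.** -/
theorem case_refute (D : Dat) {V : Type*} {R : V → V → Prop} (hF : Facts R D.six) (f : ℕ → V)
    (hb : ∀ b ∈ D.blocks, ∀ x y, x < y → y < b.2 →
      (R (f (b.1 + x)) (f (b.1 + y)) ↔ (y = x + 1 ∨ (x = 0 ∧ y = b.2 - 1))))
    (hn : ∀ t ∈ D.nks, ∀ x < t.2.1, ¬ (R (f (t.1 + x)) (f t.2.2.1) ∧ R (f (t.1 + x)) (f t.2.2.2)))
    (hpre : D.pre = true)
    (h1 : chk Ax.cl (Ax.ok D.six D.nks) D.tr 0 D.axs = true)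
    (h2 : run D.tr D.m0 D.axs.length D.L = true)
    (h3 : beqL (find D.tr (D.axs.length + D.L.length - 1)) [] = true)
    (h4 : 0 < D.L.length) : False := by
  unfold Dat.pre at hpre
  rw [Bool.and_eq_true, List.all_eq_true] at hpre
  obtain ⟨hp1, hp2⟩ := hpre
  have hm : MV (val R f) D.m0 := by
    rw [← eq_of_beq hp2]
    exact mv_mask hF f D.blocks (fun b hb' => of_decide_eq_true (hp1 b hb')) hb
  exact refute (fun a ha => ax_sound f hF hn a ha) hm h1 h2 h3 h4

end Pool.Agent.X251.PC
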