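import Mathlib
import Pool.Agent.X251.PC.Base

/-! A chordless cycle of length 6 and one of length 5 which avoids the common neighbours of the vertices 5 and 1 of the first. -/

set_option autoImplicit false
set_option maxRecDepth 100000

namespace Pool.Agent.X251.PC.CaseA

open Pool.Agent.X251.FZ

/-- clauses -/
def tr : Tr := (.nd [109,213,309,115,116,210] (.nd [11,3,51,42,178,18,106,6,38,114] (.nd [45,51,115,210,108,38,172,42,178,106] (.nd [3,37,77,13,4,44] (.nd [213,207,241,244,276,208,180,172,174,176] (.nd [47,111,115,51,38,242] (.nd [207,241,275,208,210,242,44,46,48,50] (.nd [109,173,44,177,48] .lf .lf) .lf) (.nd [45,213,181,52,42,172,48,208,276,176] (.nd [109] .lf .lf) .lf)) (.nd [213,207,111,244,116,108,52,44,46,38] (.nd [11,3,47,42,174,14,106,6,38,110] (.nd [178,45,172] .lf .lf) .lf) (.nd [46,16,78,110,49] .lf .lf))) (.nd [45,109,113,49,38,208] (.nd [241,275,309,242,244,276,46,48,50,52] (.nd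 [173,179,115,210,108,106,44,42,50,38] (.nd [174,52,176,51] .lf .lf) .lf) (.nd [45,207,175,46,42,172,50,210,242,178] (.nd [] .lf .lf) .lf)) (.nd [49,275,179,50,42,176,44,208,210,172] (.nd [207,241,275,208,210,242,172,174,176,178] (.nd [174,45] .lf .lf) .lf) (.nd [45,115,51] .lf .lf)))) (.nd [71,37,49,38,112,80,106,74,42,176] (.nd [181,177,113,276,116,106,52,42,48,38] (.nd [45,49,113,208,108,38,172,42,176,106] (.nd [53,47,111,244,116,38,180,42,174,106] (.nd [53,48,176,44,178] .lf .lf) .lf) (.nd [45,51,115,109,210,38] (.nd [146] .lf .lf) .lf)) (.nd [177,181,117,276,112,106,48,42,52,38] (.nd [71,111,241,81,78,112] (.nd [112,49,176,45] .lf .lf) .lf) (.nd [46,110,142] .lf .lf))) (.nd [177,275,51,178,42,48,172,208,210,44] (.nd [241,275,309,242,244,276,174,176,178,180] (.nd [3,37,83,19,4,50] (.nd [51] .lf .lf) .lf) (.nd [181,111,115,51] .lf .lf)) (.nd [3,37,79,15,4,46] (.nd [173,45] (.nd [46] .lf .lf) .lf)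 (.nd [177,110,115,51] .lf .lf))))) (.nd [37,3,13,4,76,44,72,40,8,140] (.nd [179,51] (.nd [175,241,49,176,42,46,106,110,112,38] (.nd [11,3,53,42,180,20,106,6,38,116] (.nd [11,21,213,173,180,12] (.nd [177,48,178,51,44] .lf .lf) .lf) (.nd [51,45,109,210,114,38,178,42,172,106] (.nd [18] .lf .lf) .lf)) (.nd [11,15,207,173,174,12] (.nd [47,111,117,53,38,244] (.nd [116,53,47,174] .lf .lf) .lf) (.nd [143,110,49,51] .lf .lf))) (.nd [109,173,179,115,106,210] (.nd [3,37,85,21,4,52] (.nd [3,11,179,42,50,18,38,6,106,114] (.nd [44,51] .lf .lf) .lf) (.nd [47,241,177,48,42,174,38,110,112,106] .lf .lf)) (.nd [13,77,83,19,4,210] (.nd [37,3,19,4,82,50,72,40,8,146] (.nd [45,172] .lf .lf) .lf) (.nd [17,145,44,108] .lf .lf)))) (.nd [3,15,207,45,46,12] (.nd [47,241,177,48,42,174,52,244,276,180] (.nd [111,175,179,115,106,242] (.nd [177,173,109,208,112,106,48,42,44,38] (.nd [48,46,176,44,178] .lf .lf) .lf) (.nd [175,47] (.nd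 [77] .lf .lf) .lf)) (.nd [275,309,213,276,208,210,176,178,180,172] (.nd [111,241,275,115,112,242] (.nd [176,174,45] .lf .lf) .lf) (.nd [173,47,110] .lf .lf))) (.nd [13,77,81,17,4,208] (.nd [207,213,117,244,110,108,174,172,180,106] (.nd [3,11,177,42,48,16,38,6,106,112] (.nd [113,177,181] .lf .lf) .lf) (.nd [111,49,115,51] .lf .lf)) (.nd [275,309,117,276,112,114,176,178,180,106] (.nd [51,309,181,52,42,178,46,242,244,174] (.nd [172] .lf .lf) .lf) (.nd [176,53,180,44,48,178] .lf .lf)))))) (.nd [179,309,53,180,42,50,174,242,244,46] (.nd [207,213,309,244,242,210,174,172,180,178] (.nd [53,49,113,276,116,38,180,42,176,106] (.nd [139,11,13,8,140,172,72,74,4,76] (.nd [45,207,175,46,42,172,38,108,110,106] (.nd [175,241,49,176,42,46,180,244,276,52] (.nd [173,48,44,177] .lf .lf) .lf) (.nd [111,175,181,117,106,244] (.nd [115] .lf .lf) .lf)) (.nd [11,3,45,42,172,12,106,6,38,108] (.nd [3,37,71,4,6,38,14,46,78,110]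 (.nd [52,177,48,47,174] .lf .lf) .lf) (.nd [47,78,110] .lf .lf))) (.nd [11,139,145,17,8,176] (.nd [3,49,241,15,16,46] (.nd [71,37,47,38,110,78,106,74,42,174] (.nd [52,44,51] .lf .lf) .lf) (.nd [71,79,207,109,110,76] .lf .lf)) (.nd [51,47,111,242,114,38,178,42,174,106] (.nd [275,309,213,276,208,210,48,50,52,44] (.nd [111,46,175,179] .lf .lf) .lf) (.nd [76,17,145,108,44] .lf .lf)))) (.nd [3,37,77,4,12,44,8,40,72,140] (.nd [71,105,141,77,72,108] (.nd [175,181,213,207,244,172] (.nd [37,3,15,4,78,46,72,40,8,142] (.nd [47,176,51] .lf .lf) .lf) (.nd [109,113,241,207,208,110] (.nd [12] .lf .lf) .lf)) (.nd [3,37,71,4,6,38,12,44,76,108] (.nd [71,37,51,38,114,82,106,74,42,178] (.nd [52,176,172,45,181] .lf .lf) .lf) (.nd [49,115,51] .lf .lf))) (.nd [71,37,53,38,116,84,106,74,42,180] (.nd [13,207,241,17,14,208] (.nd [51,309,181,52,42,178,38,114,116,106] (.nd [46,178,172,45] .lf .lf) .lf) (.nd [53,113,176,49,180]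 .lf .lf)) (.nd [3,37,79,4,14,46,8,40,72,142] (.nd [13,141,145,17,8,208] (.nd [175] .lf .lf) .lf) (.nd [110,115,51] .lf .lf))))) (.nd [15,79,85,21,4,244] (.nd [49,45,109,208,112,38,176,42,172,106] (.nd [105,143,241,113,110,144] (.nd [49,113,117,53,38,276] (.nd [173,207,47,174,42,44,178,210,242,50] (.nd [177,44,51] .lf .lf) .lf) (.nd [173,213,53,180,42,44,176,208,276,48] (.nd [83] .lf .lf) .lf)) (.nd [105,143,207,109,110,140] (.nd [173,207,47,174,42,44,106,108,110,38] (.nd [177,47,174,172] .lf .lf) .lf) (.nd [78,46,142,110] .lf .lf))) (.nd [177,49] (.nd [181,53] (.nd [49,53,309,275,276,50] (.nd [114,178,51] .lf .lf) .lf) (.nd [179,173,109,210,114,106,50,42,44,38] .lf .lf)) (.nd [179,175,111,242,114,106,50,42,46,38] (.nd [113,177,181,117,106,276] (.nd [45] .lf .lf) .lf) (.nd [108,177,48,173,44] .lf .lf)))) (.nd [213,207,241,244,276,208,52,44,46,48] (.nd [37,3,21,4,84,52,72,40,8,148] (.nd [105,139,177,106,112,144,38,40,42,48]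 (.nd [173,177,113,208,108,106,44,42,48,38] (.nd [110,44,51] .lf .lf) .lf) (.nd [13,141,147,19,8,210] (.nd [141] .lf .lf) .lf)) (.nd [109,173,177,113,106,208] (.nd [71,105,143,79,72,110] (.nd [46,174,53,179] .lf .lf) .lf) (.nd [47,110,115,51] .lf .lf))) (.nd [11,139,141,13,8,172] (.nd [3,11,181,42,52,20,38,6,106,116] (.nd [11,3,49,42,176,16,106,6,38,112] (.nd [174,178,172] .lf .lf) .lf) (.nd [180,110,49,178] .lf .lf)) (.nd [207,213,309,244,242,210,46,44,52,50] (.nd [17,145,149,21,8,276] (.nd [178] .lf .lf) .lf) (.nd [115,51] .lf .lf)))))))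

/-- the instances used -/
def axs : List Ax := [.c4 3 6 10 9, .pp 5 0 1 9 3, .pp 5 9 10 1 7, .pp 6 1 9 3 5, .pp 7 6 10 9 5, .pp 2 1 0 6 4, .c4 0 7 2 10, .c4 0 1 2 6, .pp 10 1 8 3 5, .nk 9 5 1, .pp 8 1 6 3 5, .pp 3 2 1 8 5, .pp 0 1 2 6 4, .c4 1 0 7 6, .pp 10 6 7 8 1, .pp 10 6 7 8 5, .pp 4 5 0 6 2, .pp 5 7 8 1 3, .c4 3 4 7 8, .pp 10 5 8 3 1, .c4 2 3 4 6, .pp 1 7 8 5 10, .pp 2 1 0 10 4, .c4 1 6 3 8, .c4 0 5 4 8, .c4 3 6 5 9, .nk 8 5 1, .pp 5 8 9 1 6, .pp 3 2 1 10 5, .c4 0 6 2 8, .c4 0 5 4 6, .c4 1 7 3 9, .pp 1 6 7 5 3, .pp 5 0 1 10 3, .c4 1 8 3 10, .pp 6 1 8 3 5, .c4 7 5 10 6, .c4 3 7 5 9, .pp 3 4 5 8 1, .pp 7 8 9 10 1, .c4 0 1 8 7, .c4 0 1 2 10, .nk 10 5 1, .pp 7 8 9 10 5, .c4 0 6 7 8, .pp 7 6 10 3 5, .pp 1 0 5 10 3, .pp 10 6 7 3 1, .pp 5 0 1 6 3, .c4 5 0 7 6, .c4 3 4 7 6, .pp 8 5 10 3 1, .pp 0 1 2 3 6, .pp 8 9 10 6 5, .c4 3 6 5 8, .pp 1 8 9 5 6, .pp 9 1 7 3 5, .c4 0 6 2 9, .pp 9 5 7 3 1, .c4 0 1 2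 7, .pp 0 1 2 7 4, .pp 8 9 10 3 5, .pp 7 6 10 9 1, .pp 6 7 8 9 1, .pp 5 7 8 1 10, .c4 5 0 10 6, .pp 5 6 7 1 9, .pp 10 1 7 3 5, .pp 2 1 0 7 4, .pp 8 5 6 3 1, .pp 6 5 8 3 1, .pp 6 5 9 3 1, .pp 3 2 1 7 5, .pp 1 0 5 9 3, .c4 8 1 10 9, .c4 0 1 2 9, .pp 1 9 10 5 3, .pp 1 0 5 8 3, .pp 5 0 1 8 3, .pp 5 0 1 7 3, .pp 0 1 2 3 7, .c4 1 7 3 10, .pp 5 6 7 1 3, .c4 2 3 7 8, .pp 3 2 1 9 5, .c4 3 7 8 9, .c4 2 3 4 7, .pp 6 7 8 9 5, .pp 8 9 10 6 1, .pp 2 1 0 9 4, .c4 3 8 5 10, .nk 6 5 1, .c4 0 6 4 8, .pp 1 9 10 5 7, .c4 0 8 4 10, .pp 1 6 10 5 8, .c4 3 7 5 10, .pp 9 1 6 3 5, .pp 5 6 10 1 8, .c4 6 1 9 3, .c4 6 3 8 7, .nk 7 5 1, .c4 0 6 4 9, .pp 1 6 7 5 9, .c4 3 2 7 6, .pp 1 7 8 5 3, .pp 9 5 6 3 1]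

/-- hints -/
def L : List (List ℕ) := [[31,9,42,93,36,96,91,0,47],
  [8,34],
  [26,9,31,85,107,43,64,108],
  [26,43,101,17,64,108],
  [80,40],
  [72,101],
  [9,110,42,26,86,112,93,111,17,24,18],
  [80,68],
  [114,59,60],
  [9,26,109,113,115,112,101,87,79,91,49,82,7,104],
  [101,79,112,91,49,82,7,104],
  [116,9,101,117,87,27,99,3],
  [9,91,99,3],
  [52,92,5],
  [120,7,20,12],
  [70,38,77,121],
  [119,116,9,27,122,100,69],
  [119,116,9,118,14,42,123,98,53],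
  [53,98],
  [9,116,119,124,31,85,107,14,125,27,54,122],
  [69,54],
  [122,127],
  [27,128],
  [9,26,129],
  [42,125],
  [126,9,101,56,87,117],
  [131,14],
  [9,130,132,133,113,115],
  [132,9,93,43],
  [134,9,130,132,133,126,135,64,76,96],
  [126,9,130,132,133,134,136,42,53,108,61,11,78,33,28,83,65,6,44],
  [84,1,137,91,97,48,30,57,16],
  [9,126,138],
  [139,103,4,87,42,26,39],
  [26,42,90,19],
  [4,87,42,26,141,38,51,77,46,94,41,22],
  [140,101,142],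
  [21,141,38,51,77,46,94,41,22],
  [42,33,28,67,112,79,6],
  [26,144,42,145,81,105,45,100],
  [91,11,78,10,48,30,29,16],
  [95,147,23,35],
  [91,15,42,148],
  [139,2,42],
  [139,91,143,149,26,146,39,150],
  [139,58,37],
  [143,151,101,152,115,32,86,50,80,30,13],
  [91,153],
  [154,139,63,62,74],
  [155,101],
  [155,156,154,139,146,142,15,55,42,88],
  [157,154,156,155,139,66],
  [154,139,157,158,106,25],
  [159,157,158,154,139,71],
  [160,139,158,73],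
  [161,139,75],
  [162,139,161,89],
  [159,154,52,20,12],
  [164,154,7],
  [164,163,161,102],
  [166,165,154,164,5]]

/-- the data -/
def D : Dat where
  six := false
  blocks := [(0, 6), (6, 5)]
  nks := [(6, 5, 5, 1)]
  m0 := 1042962420065382084854476928304852232698775566716232741819809372678708225585075043588947052888
  axs := axs
  tr := tr
  L := L

theorem pre : D.pre = true := by decide +kernel
theorem c1 : chk Ax.cl (Ax.ok D.six D.nks) D.tr 0 D.axs = true := by decide +kernel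
theorem c2 : run D.tr D.m0 D.axs.length D.L = true := by decide +kernel
theorem c3 : beqL (find D.tr (D.axs.length + D.L.length - 1)) [] = true := by decide +kernel
theorem c4 : 0 < D.L.length := by decide +kernel

/-- the configuration of this case is impossible -/
theorem main {V : Type*} {R : V → V → Prop} (hF : Facts R D.six) (f : ℕ → V)
    (hb : ∀ b ∈ D.blocks, ∀ x y, x < y → y < b.2 →
      (R (f (b.1 + x)) (f (b.1 + y)) ↔ (y = x + 1 ∨ (x = 0 ∧ y = b.2 - 1))))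
    (hn : ∀ t ∈ D.nks, ∀ x < t.2.1,
      ¬ (R (f (t.1 + x)) (f t.2.2.1) ∧ R (f (t.1 + x)) (f t.2.2.2))) : False :=
  case_refute D hF f hb hn pre c1 c2 c3 c4

end Pool.Agent.X251.PC.CaseA
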