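import Mathlib
import Pool.Agent.X251.PC.Base

/-! A chordless cycle of length 6 and another one which avoids the common neighbours of the vertices 5 and 1 of the first. -/

set_option autoImplicit false
set_option maxRecDepth 100000

namespace Pool.Agent.X251.PC.CaseB

open Pool.Agent.X251.FZ

/-- clauses -/
def tr : Tr := (.nd [11,3,49,42,176,16,106,6,38,112] (.nd [175,183,119,246,110,106,46,42,54,38] (.nd [3,37,81,17,4,48] (.nd [53,49,113,276,116,38,180,42,176,106] (.nd [177,275,309,178,180,276,172,208,210,212] (.nd [47,241,177,48,42,174,38,110,112,106] (.nd [81,145,151,87,72,278] (.nd [172,112,51] .lf .lf) .lf) (.nd [3,37,77,13,4,44] (.nd [53,49,176] .lf .lf) .lf)) (.nd [179,175,111,242,114,106,50,42,46,38] (.nd [71,105,147,83,72,114] (.nd [172,22,180,54,176,112] .lf .lf) .lf) (.nd [55,115,51] (.nd [45] .lf .lf) .lf))) (.nd [17,21,85,81,276,4] (.nd [37,3,11,4,74,42,80,48,16,176] (.nd [179,51] (.nd [117,48,46,51]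 .lf .lf) .lf) (.nd [143,151,215,207,246,140] (.nd [180,55,176] .lf .lf) .lf)) (.nd [3,19,275,49,50,16] (.nd [177,49] (.nd [178,176,112] .lf .lf) .lf) (.nd [150,54] .lf .lf)))) (.nd [11,3,45,42,172,12,106,6,38,108] (.nd [47,111,115,51,38,242] (.nd [71,105,145,81,72,112] (.nd [3,37,79,15,4,46] (.nd [181,117,52,173,44] .lf .lf) .lf) (.nd [71,37,49,38,112,80,106,74,42,176] (.nd [46,176] .lf .lf) .lf)) (.nd [3,37,87,23,4,54] (.nd [241,275,309,242,244,276,14,16,18,20] (.nd [146,178] .lf .lf) .lf) (.nd [111,181,172,151,115,117,48,51] .lf .lf))) (.nd [37,3,17,4,80,48,72,40,8,144] (.nd [49,275,179,50,42,176,38,112,114,106] (.nd [113,275,309,117,114,276] (.nd [46,51] .lf .lf) .lf) (.nd [11,139,145,17,8,176] (.nd [46] .lf .lf) .lf)) (.nd [143,241,275,147,144,242] (.nd [141,149,343,215,212,150] (.nd [112] .lf .lf) .lf) (.nd [177,51] .lf .lf))))) (.nd [3,37,85,21,4,52] (.nd [181,53] (.nd [37,3,19,4,82,50,72,40,8,146]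 (.nd [105,139,175,111,106,142] (.nd [37,3,11,4,74,42,82,50,18,178] (.nd [119,175,54,183,46] .lf .lf) .lf) (.nd [45,109,115,51,38,210] (.nd [21,180,52] .lf .lf) .lf)) (.nd [215,207,241,246,278,208,182,172,174,176] (.nd [3,11,183,42,54,22,38,6,106,118] (.nd [54,46,176,112] .lf .lf) .lf) (.nd [142,174,46] .lf .lf))) (.nd [241,275,309,242,244,276,174,176,178,180] (.nd [105,139,183,119,106,150] (.nd [173,181,117,212,108,106,44,42,52,38] (.nd [45,172,113,49,176] .lf .lf) .lf) (.nd [45,109,113,49,38,208] (.nd [176] .lf .lf) .lf)) (.nd [47,241,275,48,50,242,54,246,278,310] (.nd [111,115,179,175,242,106] (.nd [109,45,53] .lf .lf) .lf) (.nd [112,48,51,178,177] .lf .lf)))) (.nd [207,241,275,208,210,242,172,174,176,178] (.nd [177,275,51,178,42,48,106,112,114,38] (.nd [111,175,181,117,106,244] (.nd [37,3,13,4,76,44,72,40,8,140] (.nd [55,51] .lf .lf) .lf) (.nd [45,207,175,46,42,172,38,108,110,106] (.nd [181,52,48,176]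 .lf .lf) .lf)) (.nd [139,11,21,8,148,180,72,74,4,84] (.nd [173,207,47,174,42,44,106,108,110,38] (.nd [46,176,112] .lf .lf) .lf) (.nd [172,151,117,177,51] .lf .lf))) (.nd [45,49,113,208,108,38,172,42,176,106] (.nd [3,11,139,42,40,8,54,22,182,150] (.nd [47,111,119,55,38,246] (.nd [45,176,112] .lf .lf) .lf) (.nd [113,117,177,178] (.nd [181] .lf .lf) .lf)) (.nd [45,109,117,53,38,212] (.nd [175,47] (.nd [45,172,46,176] .lf .lf) .lf) (.nd [80,48,176] .lf .lf)))))) (.nd [51,55,343,309,310,52] (.nd [175,183,215,207,246,172] (.nd [173,177,113,208,108,106,44,42,48,38] (.nd [181,177,113,276,116,106,52,42,48,38] (.nd [139,11,13,8,140,172,72,74,4,76] (.nd [3,11,139,42,40,8,46,14,174,142] (.nd [21,180,81,17] .lf .lf) .lf) (.nd [3,11,173,42,44,12,38,6,106,108] (.nd [181,118,55,52,173] .lf .lf) .lf)) (.nd [241,275,309,242,244,276,46,48,50,52] (.nd [11,139,141,13,8,172] (.nd [178,22,180,54,46,176] .lf .lf) .lf) (.nd [15,142,46]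 (.nd [] .lf .lf) .lf))) (.nd [51,115,119,55,38,310] (.nd [207,215,343,246,244,212,46,44,54,52] (.nd [13,77,81,17,4,208] (.nd [48,46,51] .lf .lf) .lf) (.nd [113,109,173,208,176,106,276,116,212,180] (.nd [48,176] .lf .lf) .lf)) (.nd [55,51,115,310,118,38,182,42,178,106] (.nd [3,23,343,53,54,20] (.nd [176,112] .lf .lf) .lf) (.nd [117,177,51] .lf .lf)))) (.nd [215,207,241,246,278,208,54,44,46,48] (.nd [113,177,181,117,106,276] (.nd [105,139,173,109,106,140] (.nd [181,343,55,182,42,52,106,116,118,38] (.nd [47,112,51] .lf .lf) .lf) (.nd [11,139,149,21,8,180] (.nd [172,176] .lf .lf) .lf)) (.nd [109,117,181,173,212,106] (.nd [13,17,241,207,208,14] (.nd [175,46,144,176] .lf .lf) .lf) (.nd [46,110,172,151,115,48,51] .lf .lf))) (.nd [3,37,83,19,4,50] (.nd [55,47,111,246,118,38,182,42,174,106] (.nd [51,309,181,52,42,178,38,114,116,106] (.nd [51] .lf .lf) .lf) (.nd [173,113,177,48,44] (.nd [175] .lf .lf) .lf)) (.nd [11,139,147,19,8,178]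 (.nd [105,141,207,111,108,142] (.nd [178,172,46,176] .lf .lf) .lf) (.nd [81,48,112] .lf .lf))))) (.nd [111,175,183,119,106,246] (.nd [109,113,177,173,208,106] (.nd [3,11,175,42,46,14,38,6,106,110] (.nd [49,55,119,113,278,38] (.nd [109,173,179,115,106,210] (.nd [46,54,112,51] .lf .lf) .lf) (.nd [207,241,275,208,210,242,44,46,48,50] (.nd [16,20,14,49] .lf .lf) .lf)) (.nd [105,139,181,106,116,148,38,40,42,52] (.nd [49,53,117,113,276,38] (.nd [19,146] .lf .lf) .lf) (.nd [150,22,54] .lf .lf))) (.nd [53,45,109,212,116,38,180,42,172,106] (.nd [3,37,81,4,16,48,8,40,72,144] (.nd [11,139,143,15,8,174] (.nd [45,49,51] .lf .lf) .lf) (.nd [207,241,177,208,172,174,212,244,276,180] (.nd [49] .lf .lf) .lf)) (.nd [3,15,241,49,46,16] (.nd [309,343,215,310,210,212,50,52,54,44] (.nd [46,177] .lf .lf) .lf) (.nd [181,113,116,177] .lf .lf)))) (.nd [49,45,109,208,112,38,176,42,172,106] (.nd [173,45] (.nd [37,71,119,55,38,86] (.nd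 [47,51,115,242,110,38,174,42,178,106] (.nd [112,51] .lf .lf) .lf) (.nd [175,241,275,179,176,242] (.nd [111,55,47] .lf .lf) .lf)) (.nd [241,275,115,242,110,112,174,176,178,106] (.nd [3,11,139,42,40,8,50,18,178,146] (.nd [54,176,112] .lf .lf) .lf) (.nd [47,112,177,51] .lf .lf))) (.nd [37,3,15,4,78,46,72,40,8,142] (.nd [183,55] (.nd [275,309,343,276,278,310,176,178,180,182] (.nd [178,172,180,176] .lf .lf) .lf) (.nd [55,182,51,115,178] (.nd [172] .lf .lf) .lf)) (.nd [37,3,23,4,86,54,72,40,8,150] (.nd [115,179,183,119,106,310] (.nd [172,46,176] .lf .lf) .lf) (.nd [48,112,176] .lf .lf)))))))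

/-- the instances used -/
def axs : List Ax := [.pp 5 0 1 8 3, .pp 7 5 11 3 1, .c4 9 1 11 10, .c4 0 1 2 8, .c4 7 5 11 6, .c4 0 1 2 10, .c4 3 7 5 11, .pp 10 1 8 3 5, .pp 6 5 8 3 1, .nk 10 5 1, .c4 6 3 8 5, .pp 5 0 1 6 3, .pp 11 6 7 8 1, .pp 6 7 8 9 5, .pp 8 1 6 3 5, .pp 5 8 9 10 6, .pp 10 5 8 3 1, .pp 2 1 0 9 4, .pp 1 0 5 7 3, .c4 1 7 3 9, .c4 3 8 5 10, .pp 5 8 9 1 3, .nk 6 5 1, .c4 8 0 10 2, .c4 1 9 3 11, .pp 7 8 9 10 5, .pp 10 1 6 3 5, .pp 2 1 0 8 4, .c4 0 1 2 9, .pp 6 1 8 3 5, .pp 2 1 0 7 4, .pp 1 7 8 5 3, .pp 4 5 0 6 2, .c4 3 4 5 7, .c4 8 1 11 3, .c4 2 3 4 8, .c4 3 4 5 6, .c4 3 7 5 10, .c4 1 2 3 11, .pp 2 1 0 5 8, .pp 7 6 11 10 1, .c4 3 4 5 11, .pp 0 1 2 8 4, .pp 1 8 9 5 3, .pp 11 1 7 3 5, .pp 1 0 5 4 11, .nk 11 5 1, .pp 9 5 7 3 1, .pp 7 8 9 10 1, .pp 11 6 7 8 5, .pp 3 4 5 10 1, .c4 0 1 2 11, .c4 6 3 10 5, .pp 4 5 0 10 2, .pp 7 8 9 3 5, .c4 1 0 9 8, .pp 11 1 9 3 5, .pp 1 7 8 9 11, .c4 1 0 7 8, .c4 4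 7 8 9, .c4 0 5 4 9, .c4 1 6 3 10, .pp 2 1 0 11 4, .c4 2 8 4 11, .pp 1 0 5 4 7, .pp 2 1 0 5 9, .c4 3 6 5 9, .c4 0 1 2 7, .pp 5 10 11 1 3, .pp 2 1 0 6 4, .pp 7 1 9 3 5, .nk 9 5 1, .c4 0 6 2 8, .pp 6 5 10 3 1, .c4 0 5 4 7, .c4 3 8 9 10, .pp 1 9 10 5 3, .c4 1 7 3 11, .pp 8 9 10 11 5, .c4 2 3 4 9, .c4 0 5 4 6, .pp 1 0 5 11 3, .c4 8 1 10 3, .pp 7 8 9 10 0, .c4 6 0 8 7, .pp 5 6 7 1 3, .pp 1 0 5 4 9, .nk 8 5 1, .c4 1 0 11 10, .c4 7 3 9 5, .pp 9 10 11 6 1, .c4 6 4 10 11, .c4 3 4 6 7, .nk 7 5 1, .c4 3 9 5 11, .c4 0 1 2 6, .pp 1 0 5 6 3, .c4 1 6 3 9, .pp 6 7 8 9 1, .pp 3 2 1 8 5, .c4 0 5 4 10, .pp 1 6 7 5 3, .c4 5 7 8 9, .c4 7 4 11 6, .pp 8 3 6 5 10, .c4 1 6 3 8, .pp 6 7 8 5 10, .c4 0 5 4 8]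

/-- hints -/
def L : List (List ℕ) := [[8,10],
  [87,20,15,22,108],
  [56,24],
  [71,46,110],
  [30,67],
  [64,112],
  [45,41,81],
  [111,19,37,12,113,97,103,11,80],
  [111,12,97,101,11,113,80,103],
  [87,71,109,21,15,115,116,93,31],
  [87,71,21,93,19,31],
  [114,51,62],
  [87,71,109,21,111,118,12,22,117,119],
  [21,118,111,12,119,22,97,116,11,80,103,33,113],
  [87,9,16],
  [71,87,120,121,122,15,22,108],
  [3,35,42],
  [39,27,107],
  [124,125],
  [123,126,99,0,71,13,4,93,78,9,2,40,14,11,80,72,32],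
  [100,23,53],
  [1,6],
  [127,22,123,126,99,0,71,40,9,25,78,128,88,81,129],
  [73,52],
  [127,22,123,71,93,25,9,131,76,54,19],
  [123,71,2,46,9,78],
  [133,132,130],
  [71,123,133,12,22,13,4,78,134,119,75,115,116],
  [133,119,123,71,12,22,13,4,78,9,135,76,97,116,11,33,80,103],
  [29,105],
  [134,123,22,137],
  [134,133,123,136,138,40,9,82,7],
  [71,123,139,93,25,13,9,22,131,76,19,70],
  [126,99,0,22,14,11,80,72,32],
  [13,78,4],
  [140,126,142,43,102,49,81,94],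
  [25,78,129,81],
  [140,141,126,99,0,40,9,128,88,143,144,43,102,66,113,96,74,84],
  [140,17,28],
  [140,86,146],
  [102,147,59,33,112,18],
  [140,141,126,0,107,145,46,148,113,49,74,59,84,147,96,43,66],
  [140,149,93,141,126,99,0,90,9,128,25,88,43,143,66,85,96,95,84,69,74,92],
  [140,149,93,150,46,49,141,25,147,9,131,60,68,65,77,79,54],
  [140,126,141,149,93,150,46,49,151,43,66,85,77,44],
  [22,9,61,26],
  [140,87,48,98,9,22,15,106,153,101,89,47],
  [140,152,87,154,57,93,46,31,77,44],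
  [140,155,13,142,4,148,9,107,48,58,137,18,90,37,34,68],
  [155,140,156,102,113,49,46,119,103,80,137,11,48,153],
  [155,140,156,102,49,46,157,12,90,9,82,7],
  [155,9,82,7],
  [46,22,68,131],
  [5,100,53],
  [140,55,83],
  [155,140,158,22,98,159,40,46,34,160,78,102,113,74,161,162,84,96,66,104,75],
  [155,140,163,93,49,46,57,137,159,90],
  [140,125,3,42,163,57,164,22,93,131,160,50,38,77,63,85,91,36],
  [46,93,77,44],
  [155,163,93,164,22,166,85,46,78,66,104,75],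
  [140,163,57,167,9,165],
  [140,155,164,22,168,159,90,34,167,160],
  [169,87],
  [169,154],
  [171,93],
  [170,155,169,9,20,16],
  [173,169,172,106],
  [174,22],
  [174,175,169,170,155,108]]

/-- the data -/
def D : Dat where
  six := false
  blocks := [(0, 6), (6, 6)]
  nks := [(6, 6, 5, 1)]
  m0 := 17917957940551320944777101304910430018130975648896880016918551902069151826111391559582000881251393735000
  axs := axs
  tr := tr
  L := L

theorem pre : D.pre = true := by decide +kernel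
theorem c1 : chk Ax.cl (Ax.ok D.six D.nks) D.tr 0 D.axs = true := by decide +kernel
theorem c2 : run D.tr D.m0 D.axs.length D.L = true := by decide +kernel
theorem c3 : beqL (find D.tr (D.axs.length + D.L.length - 1)) [] = true := by decide +kernel
theorem c4 : 0 < D.L.length := by decide +kernel

/-- the configuration of this case is impossible -/
theorem main {V : Type*} {R : V → V → Prop} (hF : Facts R D.six) (f : ℕ → V)
    (hb : ∀ b ∈ D.blocks, ∀ x y, x < y → y < b.2 →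
      (R (f (b.1 + x)) (f (b.1 + y)) ↔ (y = x + 1 ∨ (x = 0 ∧ y = b.2 - 1))))
    (hn : ∀ t ∈ D.nks, ∀ x < t.2.1,
      ¬ (R (f (t.1 + x)) (f t.2.2.1) ∧ R (f (t.1 + x)) (f t.2.2.2))) : False :=
  case_refute D hF f hb hn pre c1 c2 c3 c4

end Pool.Agent.X251.PC.CaseB
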